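import Pool.Agent.N424.SG.Capr
import Pool.Agent.N549.SG.Stm2

/-!
# SG/LOWV (helper921, for helper549): a cap is not too small
-/

set_option autoImplicit false

open MeasureTheory Set Filter Topology
open scoped ENNReal RealInnerProductSpace Pointwise

namespace Pool.Agent.N921.SG.LowV

open Pool.Agent.N303.SH (E S sg S_norm)
open Pool.Agent.N549.SG
open Pool.Agent.N424.SG.Capr

variable {c : ℕ}

/-- the cylinder of height `a` and radius `r` -/
def Cy (c : ℕ) (a r : ℝ) : Set (Fin (c + 2) → ℝ) := {x | 0 < x 0 ∧ x 0 ≤ a ∧ tl x < r ^ 2}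

theorem vol_Cy {a r : ℝ} (ha : 0 < a) (hr : 0 < r) :
    volume (Cy c a r) = ENNReal.ofReal (a * r ^ (c + 1)) * volume (Cy c 1 1) := by
  have h1 : Cy c a r = dg (1 / a) (1 / r) ⁻¹' Cy c 1 1 := by
    ext x
    unfold Cy
    simp only [mem_preimage, mem_ofPred_eq, dg_zero, tl_dg]
    have e1 : 0 < x 0 ↔ 0 < 1 / a * x 0 := by
      rw [mul_pos_iff_of_pos_left (by positivity)]
    have e2 : x 0 ≤ a ↔ 1 / a * x 0 ≤ 1 := by
      rw [one_div, inv_mul_le_iff₀ ha, mul_one]
    have e3 : tl x < r ^ 2 ↔ (1 / r) ^ 2 * tl x < 1 ^ 2 := by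
      have e4 : (1 / r) ^ 2 * tl x < 1 ^ 2 ↔ r ^ 2 * ((1 / r) ^ 2 * tl x) < r ^ 2 * 1 ^ 2 :=
        (mul_lt_mul_iff_right₀ (by positivity)).symm
      rw [e4]
      have e5 : r ^ 2 * ((1 / r) ^ 2 * tl x) = tl x := by field_simp
      rw [e5, one_pow, mul_one]
    rw [e1, e2, e3]
  have hd : LinearMap.det (dg (c := c) (1 / a) (1 / r)) ≠ 0 := by
    rw [det_dg]
    positivity
  rw [h1, Measure.addHaar_preimage_linearMap _ hd, det_dg]
  congr 2
  rw [abs_of_pos (by positivity)]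
  field_simp
  rw [← mul_pow, one_div_mul_cancel hr.ne', one_pow]

theorem vol_Cyt (b a r : ℝ) :
    volume {x : Fin (c + 2) → ℝ | b < x 0 ∧ x 0 ≤ b + a ∧ tl x < r ^ 2} = volume (Cy c a r) := by
  have h1 : {x : Fin (c + 2) → ℝ | b < x 0 ∧ x 0 ≤ b + a ∧ tl x < r ^ 2}
      = (fun y => Pi.single 0 (-b) + y) ⁻¹' Cy c a r := by
    ext x
    unfold Cy
    have e1 : tl ((Pi.single 0 (-b) : Fin (c + 2) → ℝ) + x) = tl x := by
      unfold tl
      refine Finset.sum_congr rfl fun i _ => ?_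
      rw [Pi.add_apply, Pi.single_eq_of_ne (Fin.succ_ne_zero i), zero_add]
    have e2 : ((Pi.single 0 (-b) : Fin (c + 2) → ℝ) + x) 0 = x 0 - b := by
      rw [Pi.add_apply, Pi.single_eq_same]
      ring
    simp only [mem_preimage, mem_ofPred_eq, e1, e2]
    constructor
    · rintro ⟨a1, a2, a3⟩
      exact ⟨by linarith, by linarith, a3⟩
    · rintro ⟨a1, a2, a3⟩
      exact ⟨by linarith, by linarith, a3⟩
  rw [h1, measure_preimage_add]

theorem meas_tl : Measurable fun x : Fin (c + 2) → ℝ => tl x := by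
  unfold tl
  exact Finset.measurable_fun_sum _ fun i _ => (measurable_pi_apply _).pow_const 2

theorem meas_Cyt (b a r : ℝ) :
    MeasurableSet {x : Fin (c + 2) → ℝ | b < x 0 ∧ x 0 ≤ b + a ∧ tl x < r ^ 2} := by
  have h0 : Measurable fun x : Fin (c + 2) → ℝ => x 0 := measurable_pi_apply 0
  refine MeasurableSet.inter ?_ (MeasurableSet.inter ?_ ?_)
  · exact measurableSet_lt measurable_const h0
  · exact measurableSet_le h0 measurable_const
  · exact measurableSet_lt meas_tl measurable_const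

/-- a layer of the cone -/
theorem layer {h : ℝ} (h0 : 0 < h) (h1 : h < 1) :
    ENNReal.ofReal (h * h ^ (c + 1)) * volume (K c 1 1)
      + ENNReal.ofReal ((1 - h) * h ^ (c + 1)) * volume (Cy c 1 1) ≤ volume (K c 1 1) := by
  rw [← vol_K h0 h0, ← vol_Cy (by linarith) h0, ← vol_Cyt h (1 - h) h]
  rw [← measure_union ?_ (meas_Cyt h (1 - h) h)]
  · apply measure_mono
    rintro x (⟨a1, a2, a3⟩ | ⟨a1, a2, a3⟩)
    · refine ⟨a1, by linarith, ?_⟩
      rw [div_self h0.ne', one_mul] at a3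
      rw [div_one, one_mul]
      exact a3
    · refine ⟨by linarith, by linarith, ?_⟩
      rw [div_one, one_mul]
      have : h ^ 2 ≤ x 0 ^ 2 := by nlinarith
      linarith
  · rw [Set.disjoint_left]
    rintro x ⟨a1, a2, a3⟩ ⟨b1, b2, b3⟩
    linarith

theorem Cy_fin : volume (Cy c 1 1) ≠ ⊤ := by
  have h1 : Cy c 1 1 ⊆ Metric.closedBall 0 1 := by
    rintro x ⟨a1, a2, a3⟩
    rw [mem_closedBall_zero_iff, pi_norm_le_iff_of_nonneg zero_le_one]
    intro i
    rw [Real.norm_eq_abs]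
    refine Fin.cases ?_ (fun j => ?_) i
    · rw [abs_of_pos a1]
      exact a2
    · have h2 : x j.succ ^ 2 ≤ tl x :=
        Finset.single_le_sum (f := fun i : Fin (c + 1) => x i.succ ^ 2)
          (fun _ _ => sq_nonneg _) (Finset.mem_univ j)
      have h3 : x j.succ ^ 2 ≤ 1 := by nlinarith
      exact abs_le_one_iff_mul_self_le_one.2 (by nlinarith)
  exact ((Metric.isBounded_closedBall.subset h1).measure_lt_top).ne

theorem layer_real {h : ℝ} (h0 : 0 < h) (h1 : h < 1) :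
    h ^ (c + 1) * (volume (Cy c 1 1)).toReal ≤ ((c : ℝ) + 2) * (volume (K c 1 1)).toReal := by
  have k := ENNReal.toReal_mono K_fin (layer (c := c) h0 h1)
  have n1 : 0 ≤ h * h ^ (c + 1) := by positivity
  have n2 : 0 ≤ (1 - h) * h ^ (c + 1) := mul_nonneg (by linarith) (by positivity)
  rw [ENNReal.toReal_add (ENNReal.mul_ne_top ENNReal.ofReal_ne_top K_fin)
    (ENNReal.mul_ne_top ENNReal.ofReal_ne_top Cy_fin), ENNReal.toReal_mul, ENNReal.toReal_mul,
    ENNReal.toReal_ofReal n1, ENNReal.toReal_ofReal n2] at k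
  have hK : 0 ≤ (volume (K c 1 1)).toReal := ENNReal.toReal_nonneg
  have hb := one_add_mul_le_pow (a := h - 1) (by linarith) (c + 2)
  have e1 : 1 + (h - 1) = h := by ring
  rw [e1] at hb
  push_cast at hb
  have e2 : h * h ^ (c + 1) = h ^ (c + 2) := by ring
  rw [e2] at k
  have k2 : (1 - h) * (h ^ (c + 1) * (volume (Cy c 1 1)).toReal)
      ≤ (1 - h) * (((c : ℝ) + 2) * (volume (K c 1 1)).toReal) := by
    have k3 : (1 - h ^ (c + 2)) * (volume (K c 1 1)).toReal
        ≤ (((c : ℝ) + 2) * (1 - h)) * (volume (K c 1 1)).toReal :=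
      mul_le_mul_of_nonneg_right (by linarith) hK
    nlinarith
  exact le_of_mul_le_mul_left k2 (by linarith)

theorem Cy_le : (volume (Cy c 1 1)).toReal ≤ ((c : ℝ) + 2) * (volume (K c 1 1)).toReal := by
  have h1 : Tendsto (fun h : ℝ => h ^ (c + 1) * (volume (Cy c 1 1)).toReal) (𝓝[<] 1)
      (𝓝 ((1 : ℝ) ^ (c + 1) * (volume (Cy c 1 1)).toReal)) := by
    apply tendsto_nhdsWithin_of_tendsto_nhds
    have : Continuous (fun h : ℝ => h ^ (c + 1) * (volume (Cy c 1 1)).toReal) := by fun_prop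
    exact this.tendsto 1
  rw [one_pow, one_mul] at h1
  refine le_of_tendsto h1 ?_
  have h2 : Ioo (0 : ℝ) 1 ∈ 𝓝[<] (1 : ℝ) := Ioo_mem_nhdsLT one_pos
  filter_upwards [h2] with h hh
  exact layer_real hh.1 hh.2

/-- the unit ball is contained in a cylinder -/
theorem ball_le : volume (Metric.ball (0 : E (c + 2)) 1) ≤ 2 * volume (Cy c 1 1) := by
  have hsum : ∀ x : E (c + 2), ‖x‖ ^ 2 = x 0 ^ 2 + tl (WithLp.ofLp x) := by
    intro x
    rw [EuclideanSpace.real_norm_sq_eq, Fin.sum_univ_succ]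
    rfl
  have h1 : Metric.ball (0 : E (c + 2)) 1
      ⊆ WithLp.ofLp ⁻¹' {x : Fin (c + 2) → ℝ | -1 < x 0 ∧ x 0 ≤ -1 + 2 ∧ tl x < 1 ^ 2} := by
    intro x hx
    rw [mem_ball_zero_iff] at hx
    have h2 := hsum x
    have h3 := tl_nn (WithLp.ofLp x)
    have h4 : ‖x‖ ^ 2 < 1 := by nlinarith [norm_nonneg x]
    have h5 : x 0 ^ 2 < 1 := by nlinarith
    have h6 := abs_lt.mp ((sq_lt_one_iff_abs_lt_one _).mp h5)
    refine ⟨h6.1, ?_, ?_⟩
    · show x 0 ≤ -1 + 2
      linarith [h6.2]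
    · show tl (WithLp.ofLp x) < 1 ^ 2
      nlinarith [sq_nonneg (x 0)]
  refine le_trans (measure_mono h1) ?_
  rw [(PiLp.volume_preserving_ofLp (Fin (c + 2))).measure_preimage
    (meas_Cyt (-1) 2 1).nullMeasurableSet, vol_Cyt, vol_Cy two_pos one_pos, one_pow, mul_one]
  have : ENNReal.ofReal 2 = 2 := by simp
  rw [this]

theorem lowv : S_LOWV := by
  intro c t ht ht1
  have hm : MeasurableSet {y : S (c + 2) | t < (y : E (c + 2)) 0} := by
    refine measurableSet_lt measurable_const (Continuous.measurable ?_)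
    fun_prop
  have h3 : sg (c + 2) {y : S (c + 2) | t < (y : E (c + 2)) 0} =
      ((c + 2 : ℕ) : ℝ≥0∞) * volume (C c t) := by
    rw [Measure.toSphere_apply' _ hm, cone_eq ht, finrank_euclideanSpace_fin,
      (PiLp.volume_preserving_ofLp (Fin (c + 2))).measure_preimage (meas_C t).nullMeasurableSet]
  have h4 : sg (c + 2) univ =
      ((c + 2 : ℕ) : ℝ≥0∞) * volume (Metric.ball (0 : E (c + 2)) 1) := by
    rw [Measure.toSphere_apply_univ, finrank_euclideanSpace_fin]
  set B : ℝ := (volume (Metric.ball (0 : E (c + 2)) 1)).toReal with hB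
  have hBpos : 0 < B :=
    ENNReal.toReal_pos (Metric.measure_ball_pos volume _ one_pos).ne' measure_ball_lt_top.ne
  have hc2 : (0 : ℝ) < (c : ℝ) + 2 := by positivity
  have h5 : capVol c t = (volume (C c t)).toReal / B := by
    unfold capVol sig
    rw [measureReal_def, Measure.smul_apply, smul_eq_mul, h3, h4, ENNReal.toReal_mul,
      ENNReal.toReal_inv, ENNReal.toReal_mul, ENNReal.toReal_mul, ENNReal.toReal_natCast, ← hB]
    push_cast
    field_simp
  have hr2 : 0 < 1 - t ^ 2 := by nlinarith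
  have hr : 0 < Real.sqrt (1 - t ^ 2) := Real.sqrt_pos.2 hr2
  have hfin : volume (C c t) ≠ ⊤ :=
    ne_top_of_le_ne_top (ENNReal.mul_ne_top ENNReal.ofReal_ne_top K_fin) (up ht ht1)
  have hlow : t * Real.sqrt (1 - t ^ 2) ^ (c + 1) * (volume (K c 1 1)).toReal
      ≤ (volume (C c t)).toReal := by
    have := ENNReal.toReal_mono hfin (low (c := c) ht ht1)
    rwa [ENNReal.toReal_mul, ENNReal.toReal_ofReal (by positivity)] at this
  have hBle : B ≤ 2 * (((c : ℝ) + 2) * (volume (K c 1 1)).toReal) := by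
    have h6 := ENNReal.toReal_mono (ENNReal.mul_ne_top (by simp) Cy_fin) (ball_le (c := c))
    rw [ENNReal.toReal_mul] at h6
    have h7 : (2 : ℝ≥0∞).toReal = 2 := by simp
    rw [h7] at h6
    exact le_trans h6 (mul_le_mul_of_nonneg_left Cy_le two_pos.le)
  rw [h5, div_le_div_iff₀ (by positivity) hBpos]
  have hT : 0 ≤ t * Real.sqrt (1 - t ^ 2) ^ (c + 1) := by positivity
  calc t * Real.sqrt (1 - t ^ 2) ^ (c + 1) * B
      ≤ t * Real.sqrt (1 - t ^ 2) ^ (c + 1) * (2 * (((c : ℝ) + 2) * (volume (K c 1 1)).toReal)) :=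
        mul_le_mul_of_nonneg_left hBle hT
    _ = t * Real.sqrt (1 - t ^ 2) ^ (c + 1) * (volume (K c 1 1)).toReal * (2 * ((c : ℝ) + 2)) := by
        ring
    _ ≤ _ := mul_le_mul_of_nonneg_right hlow (by positivity)

end Pool.Agent.N921.SG.LowV
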